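import Mathlib
import Pool.Agent.MDX.Final

/-!
The multiplicative Dirichlet spectrum is exactly the closed interval `[0, F]` with the explicit
quadratic irrational `F = 0.38198287830295648...`.
-/

namespace Pool.Agent.Results.MP_85fa44_nt.SpectrumExactly

open Pool.Agent.Lib_helper94.MDS

/-- The multiplicative Dirichlet spectrum is the interval `[0, F]`,
`F = 6209318411912960898313 / 16362765653983676769060 +
  8878546621181637349 / 2868687348925110243798061080 * √654739973030 = 0.38198287830295648...`. -/
theorem result : mulDirichletSpectrum = Set.Icc (0 : ℝ)
    (6209318411912960898313 / 16362765653983676769060 +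
      8878546621181637349 / 2868687348925110243798061080 * Real.sqrt 654739973030) :=
  Pool.Agent.MDX.spectrum_eq

end Pool.Agent.Results.MP_85fa44_nt.SpectrumExactly
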